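import Pool.Agent.N261.BC.Uniq

namespace Pool.Agent.Results.MP_a0c75d_an.BasinSeparatrix

open Filter Topology Set

/-- `x` is a solution with admissible initial values; `x n` is the term with index `n - 1` of the
problem, so `x 0`, `x 1` are the initial values `x_{-1}`, `x_0`. -/
def IsSol (α A B : ℝ) (x : ℕ → ℝ) : Prop :=
  0 ≤ x 0 ∧ 0 ≤ x 1 ∧ ¬ (A = 0 ∧ x 0 = 0 ∧ x 1 = 0) ∧
    ∀ n, x (n + 2) = (α + x n) / (A + B * x (n + 1) + x n)

/-- the equilibrium -/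
noncomputable def xbar (α A B : ℝ) : ℝ :=
  (1 - A + Real.sqrt ((1 - A) ^ 2 + 4 * α * (1 + B))) / (2 * (1 + B))

/-- the smaller value of the two-cycle -/
noncomputable def cycLow (α A B : ℝ) : ℝ :=
  (1 - A - Real.sqrt ((1 - A) ^ 2 - 4 * α / (B - 1))) / 2

/-- the larger value of the two-cycle -/
noncomputable def cycHigh (α A B : ℝ) : ℝ :=
  (1 - A + Real.sqrt ((1 - A) ^ 2 - 4 * α / (B - 1))) / 2

/-- Full answer to Q1. -/
theorem result (α A B : ℝ) (hα : 0 < α) (hB : 1 < B) (hA0 : 0 ≤ A) (hA1 : A < 1)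
    (hH : α < (B - 1) * (1 - A) ^ 2 / 4) :
    ∃ φ : ℝ → ℝ,
      ContinuousOn φ (Ici 0) ∧ StrictMonoOn φ (Ici 0) ∧ (∀ u, 0 ≤ u → 0 < φ u) ∧
      φ (xbar α A B) = xbar α A B ∧
      (∀ u, 0 ≤ u → u < xbar α A B → u < φ u ∧ φ u < xbar α A B) ∧
      (∀ u, xbar α A B < u → xbar α A B < φ u ∧ φ u < u) ∧
      (∃ L, xbar α A B < L ∧ φ L = 1 ∧ (∀ u, 0 ≤ u → φ u < L) ∧ Tendsto φ atTop (𝓝 L)) ∧
      (∀ u, 0 ≤ u → φ (φ u) = (α + u) / (A + B * φ u + u)) ∧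
      (∀ ψ : ℝ → ℝ, MonotoneOn ψ (Ici 0) → (∀ u, 0 ≤ u → 0 < ψ u) →
        (∀ u, 0 ≤ u → ψ (ψ u) = (α + u) / (A + B * ψ u + u)) → EqOn ψ φ (Ici 0)) ∧
      ∀ x : ℕ → ℝ, IsSol α A B x →
        (Tendsto x atTop (𝓝 (xbar α A B)) ↔ x 1 = φ (x 0)) ∧
        (x 1 = φ (x 0) → ∀ n, x (n + 1) = φ (x n)) ∧
        ((Tendsto (fun k => x (2 * k + 1)) atTop (𝓝 (cycLow α A B)) ∧
          Tendsto (fun k => x (2 * k)) atTop (𝓝 (cycHigh α A B))) ↔ x 1 < φ (x 0)) ∧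
        ((Tendsto (fun k => x (2 * k + 1)) atTop (𝓝 (cycHigh α A B)) ∧
          Tendsto (fun k => x (2 * k)) atTop (𝓝 (cycLow α A B))) ↔ φ (x 0) < x 1) := by
  have h : N261.BC.Par α A B := ⟨hα, hB, hA0, hA1, hH⟩
  obtain ⟨φ, hφ⟩ := N261.BC.exists_phi h
  refine ⟨φ, hφ.continuous h, hφ.strictMono h, fun u hu => (hφ u hu).1, hφ.fix h,
    fun u hu hl => hφ.bounds_lt h hu hl, fun u hl => hφ.bounds_gt h hl, hφ.asym h,
    fun u hu => hφ.func h hu, fun ψ hm hp hf u hu => hφ.unique_mono' h hm hp hf hu, ?_⟩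
  rintro x ⟨h0, h1, hne, hrec⟩
  have hD : 0 < A + B * x 1 + x 0 := by
    have hB1 : 0 ≤ B * x 1 := mul_nonneg (by linarith) h1
    rcases eq_or_lt_of_le (by positivity : 0 ≤ A + B * x 1 + x 0) with hz | hz
    · exfalso
      have e1 : B * x 1 = 0 := by linarith
      refine hne ⟨by linarith, by linarith, ?_⟩
      rcases mul_eq_zero.1 e1 with h2 | h2
      · linarith
      · exact h2
    · exact hz
  have hx : N261.BC.Sol α A B x := ⟨h0, h1, hD, hrec⟩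
  have hml := h.m_lt_xb_lt_M
  have hlt : x 1 < φ (x 0) → Tendsto (fun k => x (2 * k + 1)) atTop (𝓝 (cycLow α A B)) ∧
      Tendsto (fun k => x (2 * k)) atTop (𝓝 (cycHigh α A B)) :=
    fun hl => hx.conv_SL h (hφ.lower h hx hl)
  have hgt : φ (x 0) < x 1 → Tendsto (fun k => x (2 * k + 1)) atTop (𝓝 (cycHigh α A B)) ∧
      Tendsto (fun k => x (2 * k)) atTop (𝓝 (cycLow α A B)) :=
    fun hl => hx.conv_SU h (hφ.upper h hx hl)
  have hw : Tendsto x atTop (𝓝 (xbar α A B)) ↔ x 1 = φ (x 0) :=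
    ⟨fun hl => hφ.unique h hx hl, fun he => hφ.on h hx he⟩
  have hm1 : cycLow α A B < xbar α A B := hml.1
  have hm2 : xbar α A B < cycHigh α A B := hml.2
  refine ⟨hw, fun he n => hφ.iter h hx (hw.2 he) n, ⟨fun ht => ?_, hlt⟩, ⟨fun ht => ?_, hgt⟩⟩
  · rcases lt_trichotomy (x 1) (φ (x 0)) with hc | hc | hc
    · exact hc
    · exfalso
      have h3 := tendsto_nhds_unique ht.1 (N261.BC.sub_even (hw.2 hc) 1)
      linarith
    · exfalso
      have h3 := tendsto_nhds_unique ht.1 (hgt hc).1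
      linarith
  · rcases lt_trichotomy (x 1) (φ (x 0)) with hc | hc | hc
    · exfalso
      have h3 := tendsto_nhds_unique ht.1 (hlt hc).1
      linarith
    · exfalso
      have h3 := tendsto_nhds_unique ht.1 (N261.BC.sub_even (hw.2 hc) 1)
      linarith
    · exact hc

end Pool.Agent.Results.MP_a0c75d_an.BasinSeparatrix
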